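import Mathlib

set_option autoImplicit false

namespace Pool.Agent.Results.MP_28c31d_co.GonalityRatio

open Finset

/-- A loopless multigraph with vertex type `V` and edge type `E`: every edge has two distinct ends
(listed in an arbitrary order); parallel edges are allowed. -/
structure MultiGraph (V E : Type) where
  /-- first end of an edge -/
  src : E → V
  /-- second end of an edge -/
  tgt : E → V
  ne : ∀ e, src e ≠ tgt e

variable {V E : Type}

section

variable [Fintype E] [DecidableEq V]

/-- The Laplacian: `(L f)(v)` is the sum over all edges at `v` of `f v` minus the value of `f` at the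
other end of the edge. -/
def MultiGraph.lap (G : MultiGraph V E) (f : V → ℤ) (v : V) : ℤ :=
  ∑ e : E, ((if G.src e = v then f v - f (G.tgt e) else 0) +
    (if G.tgt e = v then f v - f (G.src e) else 0))

/-- Equivalence of divisors: the difference lies in the image of the Laplacian. -/
def MultiGraph.Equiv (G : MultiGraph V E) (D D' : V → ℤ) : Prop :=
  ∃ f : V → ℤ, ∀ v, D' v = D v - G.lap f v

/-- `D` has rank at least one: for every vertex `v` the divisor `D - v` is equivalent to an effective
divisor. -/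
def MultiGraph.RankGeOne (G : MultiGraph V E) (D : V → ℤ) : Prop :=
  ∀ v : V, ∃ D' : V → ℤ, (∀ w, 0 ≤ D' w) ∧ G.Equiv (fun w => D w - if w = v then 1 else 0) D'

/-- The divisorial gonality: the minimum degree of an effective divisor of rank at least one. -/
noncomputable def MultiGraph.gon [Fintype V] (G : MultiGraph V E) : ℕ :=
  sInf {d : ℕ | ∃ D : V → ℤ, (∀ w, 0 ≤ D w) ∧ ∑ w, D w = (d : ℤ) ∧ G.RankGeOne D}

end

/-- The `i`-th point, `0 ≤ i ≤ k`, of the path of `k` edges which replaces the edge `e`. -/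
def MultiGraph.pt (G : MultiGraph V E) (k : ℕ) (e : E) (i : ℕ) : V ⊕ (E × Fin (k - 1)) :=
  if i = 0 then Sum.inl (G.src e)
  else if h : i - 1 < k - 1 then Sum.inr (e, ⟨i - 1, h⟩) else Sum.inl (G.tgt e)

lemma MultiGraph.pt_ne (G : MultiGraph V E) (k : ℕ) (e : E) (i : ℕ) (hi : i < k) :
    G.pt k e i ≠ G.pt k e (i + 1) := by
  unfold MultiGraph.pt
  by_cases h0 : i = 0
  · subst h0
    by_cases h1 : (0 : ℕ) < k - 1
    · simp [h1]
    · simp [h1, G.ne e]
  · have h1 : i - 1 < k - 1 := by omega
    by_cases h2 : i < k - 1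
    · simp only [h0, ↓reduceIte, h1, ↓reduceDIte, Nat.add_eq_zero_iff, one_ne_zero, and_false,
        add_tsub_cancel_right, h2, ne_eq, Sum.inr.injEq, Prod.mk.injEq, Fin.mk.injEq, true_and]
      omega
    · simp [h0, h1, h2]

/-- The graph `G^(k)`: every edge is replaced by a path of `k` edges, through `k - 1` new vertices. -/
def MultiGraph.subdiv (G : MultiGraph V E) (k : ℕ) : MultiGraph (V ⊕ (E × Fin (k - 1))) (E × Fin k) where
  src x := G.pt k x.1 x.2
  tgt x := G.pt k x.1 (x.2 + 1)
  ne x := G.pt_ne k x.1 x.2 x.2.2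

lemma slope (k : ℕ) (g a : ℕ → ℤ) (ha : ∀ i, 0 ≤ a i)
    (h : ∀ i, i + 1 < k → g (i + 1) - g i - a i ≤ g (i + 2) - g (i + 1)) (hk : 1 ≤ k) :
    (k : ℤ) * (g 1 - g 0 - ∑ i ∈ range (k - 1), a i) ≤ g k - g 0 := by
  have h1 : ∀ j, j + 1 ≤ k → g 1 - g 0 - ∑ i ∈ range j, a i ≤ g (j + 1) - g j := by
    intro j
    induction j with
    | zero => intro _; simp
    | succ j ih =>
      intro hj
      have := ih (by omega)
      have h2 := h j (by omega)
      rw [sum_range_succ]
      linarith
  have h2 : ∀ j, j + 1 ≤ k → g 1 - g 0 - ∑ i ∈ range (k - 1), a i ≤ g (j + 1) - g j := by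
    intro j hj
    have := h1 j hj
    have h3 : ∑ i ∈ range j, a i ≤ ∑ i ∈ range (k - 1), a i :=
      sum_le_sum_of_subset_of_nonneg (range_subset_range.mpr (by omega)) (fun i _ _ => ha i)
    linarith
  have h3 : ∀ j, j ≤ k → (j : ℤ) * (g 1 - g 0 - ∑ i ∈ range (k - 1), a i) ≤ g j - g 0 := by
    intro j
    induction j with
    | zero => intro _; simp
    | succ j ih =>
      intro hj
      have h4 := ih (by omega)
      have h5 := h2 j hj
      push_cast
      linarith
  exact h3 k le_rfl

lemma slope' (k : ℕ) (g a : ℕ → ℤ) (ha : ∀ i, 0 ≤ a i)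
    (h : ∀ i, i + 1 < k → g (i + 1) - g i - a i ≤ g (i + 2) - g (i + 1)) (hk : 1 ≤ k) :
    (k : ℤ) * (g (k - 1) - g k - ∑ i ∈ range (k - 1), a i) ≤ g 0 - g k := by
  have key := slope k (fun i => g (k - i)) (fun i => a (k - 2 - i)) (fun i => ha _) (by
    intro i hi
    have h1 := h (k - 2 - i) (by omega)
    have e1 : k - 2 - i + 1 = k - (i + 1) := by omega
    have e2 : k - 2 - i + 2 = k - i := by omega
    have e3 : k - 2 - i = k - (i + 2) := by omega
    rw [e1, e2] at h1
    rw [e3] at h1 ⊢
    linarith) hk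
  have hs : ∑ i ∈ range (k - 1), a (k - 2 - i) = ∑ i ∈ range (k - 1), a i := by
    rw [← sum_range_reflect]
    apply sum_congr rfl
    intro i hi
    rw [mem_range] at hi
    congr 1
    omega
  simp only [hs, Nat.sub_zero, Nat.sub_self] at key
  exact key

section

variable [Fintype E] [DecidableEq V] [DecidableEq E]

/-- Laplacian of the subdivision at a new vertex. -/
lemma lap_inr (G : MultiGraph V E) (k : ℕ) (f : V ⊕ (E × Fin (k - 1)) → ℤ) (e : E) (j : Fin (k - 1)) :
    (G.subdiv k).lap f (Sum.inr (e, j)) =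
      (f (G.pt k e (j + 1)) - f (G.pt k e (j + 2))) + (f (G.pt k e (j + 1)) - f (G.pt k e j)) := by
  have hj := j.2
  have hpt : G.pt k e (j + 1) = Sum.inr (e, j) := by
    unfold MultiGraph.pt
    simp
  unfold MultiGraph.lap MultiGraph.subdiv
  simp only
  rw [sum_add_distrib]
  congr 1
  · rw [Finset.sum_eq_single (e, (⟨j + 1, by omega⟩ : Fin k))]
    · rw [if_pos hpt, hpt]
    · rintro ⟨e', i⟩ _ hne
      rw [if_neg]
      intro h
      apply hne
      unfold MultiGraph.pt at h
      split_ifs at h with h1 h2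
      simp only [Sum.inr.injEq, Prod.mk.injEq] at h
      obtain ⟨h3, h4⟩ := h
      simp only at h1 h2 h3
      ext
      · simp [h3]
      · simp only
        have := congrArg Fin.val h4
        simp only at this
        omega
    · simp
  · rw [Finset.sum_eq_single (e, (⟨j, by omega⟩ : Fin k))]
    · rw [if_pos hpt, hpt]
    · rintro ⟨e', i⟩ _ hne
      rw [if_neg]
      intro h
      apply hne
      unfold MultiGraph.pt at h
      rw [if_neg (Nat.succ_ne_zero _)] at h
      split_ifs at h with h2
      simp only [Sum.inr.injEq, Prod.mk.injEq] at h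
      obtain ⟨h3, h4⟩ := h
      simp only at h2 h3
      ext
      · simp [h3]
      · simp only
        have := congrArg Fin.val h4
        simp only at this
        omega
    · simp

/-- Laplacian of the subdivision at an old vertex. -/
lemma lap_inl (G : MultiGraph V E) (k : ℕ) (hk : 1 ≤ k) (f : V ⊕ (E × Fin (k - 1)) → ℤ) (u : V) :
    (G.subdiv k).lap f (Sum.inl u) =
      ∑ e : E, ((if G.src e = u then f (G.pt k e 0) - f (G.pt k e 1) else 0) +
        (if G.tgt e = u then f (G.pt k e k) - f (G.pt k e (k - 1)) else 0)) := by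
  unfold MultiGraph.lap MultiGraph.subdiv
  simp only
  rw [Fintype.sum_prod_type]
  apply sum_congr rfl
  intro e _
  simp only
  rw [sum_add_distrib]
  congr 1
  · rw [Finset.sum_eq_single (⟨0, by omega⟩ : Fin k)]
    · have h0 : G.pt k e 0 = Sum.inl (G.src e) := by unfold MultiGraph.pt; simp
      simp only [h0, Sum.inl.injEq, zero_add]
      by_cases h : G.src e = u
      · simp [h]
      · simp [h]
    · intro i _ hne
      rw [if_neg]
      intro h
      apply hne
      have hi := i.2
      unfold MultiGraph.pt at h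
      split_ifs at h with h1 h2
      · exact Fin.ext h1
      · omega
    · simp
  · rw [Finset.sum_eq_single (⟨k - 1, by omega⟩ : Fin k)]
    · have h0 : G.pt k e k = Sum.inl (G.tgt e) := by
        unfold MultiGraph.pt
        rw [if_neg (by omega), dif_neg (by omega)]
      have h1 : k - 1 + 1 = k := by omega
      simp only [h1, h0, Sum.inl.injEq]
      by_cases h : G.tgt e = u
      · simp [h]
      · simp [h]
    · intro i _ hne
      rw [if_neg]
      intro h
      apply hne
      have hi := i.2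
      unfold MultiGraph.pt at h
      rw [if_neg (Nat.succ_ne_zero _)] at h
      split_ifs at h with h2
      · apply Fin.ext
        simp only
        omega
    · simp

end

variable [Fintype V] [Fintype E] [DecidableEq V] [DecidableEq E]

/-- the number of chips in the interior of the path replacing `e` -/
def inner (k : ℕ) (D : V ⊕ (E × Fin (k - 1)) → ℤ) (e : E) : ℤ := ∑ j : Fin (k - 1), D (Sum.inr (e, j))

/-- every interior chip is moved to both ends of its edge -/
def push (G : MultiGraph V E) (k : ℕ) (D : V ⊕ (E × Fin (k - 1)) → ℤ) (u : V) : ℤ :=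
  D (Sum.inl u) + ∑ e : E, ((if G.src e = u then inner k D e else 0) +
    (if G.tgt e = u then inner k D e else 0))

lemma inner_nonneg (k : ℕ) (D : V ⊕ (E × Fin (k - 1)) → ℤ) (hD : ∀ w, 0 ≤ D w) (e : E) :
    0 ≤ inner k D e := sum_nonneg (fun _ _ => hD _)

lemma push_nonneg (G : MultiGraph V E) (k : ℕ) (D : V ⊕ (E × Fin (k - 1)) → ℤ) (hD : ∀ w, 0 ≤ D w) (u : V) :
    0 ≤ push G k D u := by
  unfold push
  apply add_nonneg (hD _)
  apply sum_nonneg
  intro e _
  have := inner_nonneg k D hD e
  split_ifs <;> linarith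

lemma push_deg (G : MultiGraph V E) (k : ℕ) (D : V ⊕ (E × Fin (k - 1)) → ℤ) (hD : ∀ w, 0 ≤ D w) :
    ∑ u, push G k D u ≤ 2 * ∑ w, D w := by
  have h1 : ∑ w, D w = ∑ u : V, D (Sum.inl u) + ∑ e : E, inner k D e := by
    rw [Fintype.sum_sum_type, Fintype.sum_prod_type]
    rfl
  have h2 : ∑ u, push G k D u = ∑ u : V, D (Sum.inl u) + 2 * ∑ e : E, inner k D e := by
    unfold push
    rw [sum_add_distrib, sum_comm]
    congr 1
    rw [mul_sum]
    apply sum_congr rfl
    intro e _
    rw [sum_add_distrib, sum_ite_eq, sum_ite_eq]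
    simp
    ring
  have h3 : 0 ≤ ∑ u : V, D (Sum.inl u) := sum_nonneg (fun _ _ => hD _)
  rw [h1, h2]
  linarith

/-- the key rank statement -/
lemma push_rank (G : MultiGraph V E) (k : ℕ) (hk : 1 ≤ k) (D : V ⊕ (E × Fin (k - 1)) → ℤ)
    (hD : ∀ w, 0 ≤ D w) (hr : (G.subdiv k).RankGeOne D) : G.RankGeOne (push G k D) := by
  intro w
  obtain ⟨D', hD', f, hf⟩ := hr (Sum.inl w)
  refine ⟨fun u => push G k D u - (if u = w then 1 else 0) - G.lap (fun v => f (Sum.inl v) / (k : ℤ)) u, ?_,
    (fun v => f (Sum.inl v) / (k : ℤ)), fun v => rfl⟩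
  have hk0 : (0 : ℤ) < k := by exact_mod_cast hk
  have hfl : ∀ x y c : ℤ, (k : ℤ) * c ≤ x - y → c ≤ x / (k : ℤ) - y / (k : ℤ) := by
    intro x y c h
    have h1 : (y + k * c) / (k : ℤ) ≤ x / (k : ℤ) := Int.ediv_le_ediv hk0 (by linarith)
    rw [Int.add_mul_ediv_left _ _ hk0.ne'] at h1
    linarith
  -- the slope conditions on each edge
  have hslope : ∀ e : E, ∀ i, i + 1 < k →
      f (G.pt k e (i + 1)) - f (G.pt k e i) - (if h : i < k - 1 then D (Sum.inr (e, ⟨i, h⟩)) else 0) ≤
        f (G.pt k e (i + 2)) - f (G.pt k e (i + 1)) := by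
    intro e i hi
    have hi' : i < k - 1 := by omega
    have h1 := hf (Sum.inr (e, ⟨i, hi'⟩))
    rw [lap_inr] at h1
    have h2 := hD' (Sum.inr (e, ⟨i, hi'⟩))
    simp only [reduceCtorEq, ↓reduceIte, sub_zero] at h1
    rw [dif_pos hi']
    linarith
  have hsum : ∀ e : E, ∑ i ∈ range (k - 1), (if h : i < k - 1 then D (Sum.inr (e, ⟨i, h⟩)) else 0) =
      inner k D e := by
    intro e
    unfold inner
    rw [Finset.sum_range]
    apply sum_congr rfl
    intro j _
    simp
  have ha : ∀ e : E, ∀ i, 0 ≤ (if h : i < k - 1 then D (Sum.inr (e, ⟨i, h⟩)) else 0) := by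
    intro e i
    split_ifs
    · exact hD _
    · exact le_rfl
  have hpt0 : ∀ e, G.pt k e 0 = Sum.inl (G.src e) := by
    intro e; unfold MultiGraph.pt; simp
  have hptk : ∀ e, G.pt k e k = Sum.inl (G.tgt e) := by
    intro e; unfold MultiGraph.pt
    rw [if_neg (by omega), dif_neg (by omega)]
  have hsrc : ∀ e : E, f (G.pt k e 1) - f (G.pt k e 0) - inner k D e ≤
      f (Sum.inl (G.tgt e)) / (k : ℤ) - f (Sum.inl (G.src e)) / (k : ℤ) := by
    intro e
    have := slope k (fun i => f (G.pt k e i)) _ (ha e) (hslope e) hk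
    rw [hsum] at this
    apply hfl
    simp only [hptk] at this
    rw [← hpt0]
    exact this
  have htgt : ∀ e : E, f (G.pt k e (k - 1)) - f (G.pt k e k) - inner k D e ≤
      f (Sum.inl (G.src e)) / (k : ℤ) - f (Sum.inl (G.tgt e)) / (k : ℤ) := by
    intro e
    have := slope' k (fun i => f (G.pt k e i)) _ (ha e) (hslope e) hk
    rw [hsum] at this
    apply hfl
    simp only [hpt0] at this
    rw [← hptk]
    exact this
  intro u
  have h1 := hf (Sum.inl u)
  rw [lap_inl G k hk] at h1
  have h2 := hD' (Sum.inl u)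
  have hcomp : ∑ e : E, ((if G.src e = u then f (G.pt k e 1) - f (G.pt k e 0) else 0) +
      (if G.tgt e = u then f (G.pt k e (k - 1)) - f (G.pt k e k) else 0)) ≤
      ∑ e : E, ((if G.src e = u then inner k D e else 0) + (if G.tgt e = u then inner k D e else 0))
        - G.lap (fun v => f (Sum.inl v) / (k : ℤ)) u := by
    unfold MultiGraph.lap
    rw [← sum_sub_distrib]
    apply sum_le_sum
    intro e _
    have a1 := hsrc e
    have a2 := htgt e
    by_cases c1 : G.src e = u
    · by_cases c2 : G.tgt e = u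
      · exact absurd (c1.trans c2.symm) (G.ne e)
      · simp only [c1, c2, ↓reduceIte, add_zero]
        rw [c1] at a1
        linarith
    · by_cases c2 : G.tgt e = u
      · simp only [c1, c2, ↓reduceIte, zero_add]
        rw [c2] at a2
        linarith
      · simp [c1, c2]
  have hneg : ∑ e : E, ((if G.src e = u then f (G.pt k e 1) - f (G.pt k e 0) else 0) +
      (if G.tgt e = u then f (G.pt k e (k - 1)) - f (G.pt k e k) else 0)) =
      - ∑ e : E, ((if G.src e = u then f (G.pt k e 0) - f (G.pt k e 1) else 0) +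
        (if G.tgt e = u then f (G.pt k e k) - f (G.pt k e (k - 1)) else 0)) := by
    rw [← sum_neg_distrib]
    apply sum_congr rfl
    intro e _
    split_ifs <;> ring
  simp only [Sum.inl.injEq] at h1
  unfold push
  simp only
  rw [hneg] at hcomp
  linarith

/-- **Uniform subdivision lowers the gonality by at most a factor of two**:
`gon(G) ≤ 2 gon(G^(k))` for every finite loopless multigraph `G` (connected or not) and every `k ≥ 1`. -/
theorem result (V E : Type) [Fintype V] [Fintype E] [DecidableEq V] [DecidableEq E]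
    (G : MultiGraph V E) (k : ℕ) (hk : 1 ≤ k) : G.gon ≤ 2 * (G.subdiv k).gon := by
  have hne : {d : ℕ | ∃ D : V ⊕ (E × Fin (k - 1)) → ℤ, (∀ w, 0 ≤ D w) ∧ ∑ w, D w = (d : ℤ) ∧
      (G.subdiv k).RankGeOne D}.Nonempty := by
    refine ⟨Fintype.card (V ⊕ (E × Fin (k - 1))), fun _ => 1, fun _ => by norm_num, by simp, ?_⟩
    intro v
    refine ⟨fun w => 1 - if w = v then 1 else 0, fun w => by dsimp only; split_ifs <;> norm_num, fun _ => 0, fun w => ?_⟩
    simp [MultiGraph.lap]
  obtain ⟨D, hD, hdeg, hr⟩ := Nat.sInf_mem hne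
  have h0 : 0 ≤ ∑ u, push G k D u := sum_nonneg (fun u _ => push_nonneg G k D hD u)
  obtain ⟨d, hd⟩ := Int.eq_ofNat_of_zero_le h0
  have h1 : G.gon ≤ d := Nat.sInf_le ⟨push G k D, push_nonneg G k D hD, hd, push_rank G k hk D hD hr⟩
  have h2 := push_deg G k D hD
  rw [hd, hdeg] at h2
  have h3 : d ≤ 2 * (G.subdiv k).gon := by
    unfold MultiGraph.gon
    exact_mod_cast h2
  exact h1.trans h3

end Pool.Agent.Results.MP_28c31d_co.GonalityRatio
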